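import Pool.Agent.Helper89.Germ.R1

/-!
# Unitary multipliers (MP_91c48b_an)

`multiplier s` is the derivative of the germ `s` at `0`, `cc s = s''(0)/s'(0)`; `cc (a b) = cc b + multiplier b * cc a`.  If a field embedding
`σ` makes all multipliers of the generators unitary, `σ ∘ ℓ ∘ cc` (with `ℓ` linear over the field, `ℓ 1 = 1`) is subadditive in absolute value.
-/

set_option autoImplicit false

open Filter Topology Pool.Agent.Germ

namespace Pool.Agent.Helper53.UM

/-- the derivative at `0` -/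
noncomputable def multiplier (s : GermDiff 2) : ℝ :=
  Quotient.lift (fun f : LD 2 => deriv f.toFun 0) (fun f g h => by
    have h' : f.toFun =ᶠ[𝓝 0] g.toFun := h
    exact h'.deriv_eq) s

/-- `s''(0)/s'(0)` -/
noncomputable def cc (s : GermDiff 2) : ℝ :=
  Quotient.lift (fun f : LD 2 => deriv (deriv f.toFun) 0 / deriv f.toFun 0) (fun f g h => by
    have h' : f.toFun =ᶠ[𝓝 0] g.toFun := h
    show deriv (deriv f.toFun) 0 / deriv f.toFun 0 = deriv (deriv g.toFun) 0 / deriv g.toFun 0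
    rw [h'.deriv_eq, h'.deriv.deriv_eq]) s

lemma multiplier_mk (f : LD 2) : multiplier (GermDiff.mk f) = deriv f.toFun 0 := rfl

lemma cc_mk (f : LD 2) : cc (GermDiff.mk f) = deriv (deriv f.toFun) 0 / deriv f.toFun 0 := rfl

lemma ev_diff (f : LD 2) : ∀ᶠ x in 𝓝 (0 : ℝ), DifferentiableAt ℝ f.toFun x := by
  have h := f.smooth'.eventually (by simp)
  filter_upwards [h] with x hx
  exact hx.differentiableAt (by simp)

lemma diff_deriv (f : LD 2) : DifferentiableAt ℝ (deriv f.toFun) 0 := by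
  have h2 : ContDiffAt ℝ 1 (deriv f.toFun) 0 := by
    have h3 : ContDiffAt ℝ 1 (fderiv ℝ f.toFun) 0 := f.smooth'.fderiv_right (m := 1) (by norm_num)
    have h4 : ContDiffAt ℝ 1 (fun x => fderiv ℝ f.toFun x 1) 0 := h3.clm_apply contDiffAt_const
    exact h4
  exact h2.differentiableAt (by norm_num)

lemma comp_facts (f g : LD 2) : deriv (f.toFun ∘ g.toFun) 0 = deriv f.toFun 0 * deriv g.toFun 0 ∧
    deriv (deriv (f.toFun ∘ g.toFun)) 0 = deriv (deriv f.toFun) 0 * deriv g.toFun 0 ^ 2 + deriv f.toFun 0 * deriv (deriv g.toFun) 0 := by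
  have hg0 := g.map_zero'
  have hev : ∀ᶠ x in 𝓝 (0 : ℝ), deriv (f.toFun ∘ g.toFun) x = deriv f.toFun (g.toFun x) * deriv g.toFun x := by
    have h1 := g.tendsto.eventually (ev_diff f)
    filter_upwards [h1, ev_diff g] with x hx hx'
    exact deriv_comp x hx hx'
  refine ⟨?_, ?_⟩
  · have h := hev.self_of_nhds
    rw [h, hg0]
  · have h1 : deriv (deriv (f.toFun ∘ g.toFun)) 0 = deriv (fun x => deriv f.toFun (g.toFun x) * deriv g.toFun x) 0 :=
      EventuallyEq.deriv_eq hev
    rw [h1]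
    have hf' : DifferentiableAt ℝ (deriv f.toFun) (g.toFun 0) := by
      rw [hg0]
      exact diff_deriv f
    have h2 : HasDerivAt (fun x => deriv f.toFun (g.toFun x)) (deriv (deriv f.toFun) (g.toFun 0) * deriv g.toFun 0) 0 :=
      hf'.hasDerivAt.comp (0 : ℝ) g.differentiableAt.hasDerivAt
    have h3 := (diff_deriv g).hasDerivAt
    have h4 := (h2.mul h3).deriv
    have h5 : deriv (fun x => deriv f.toFun (g.toFun x) * deriv g.toFun x) 0 =
        deriv (deriv f.toFun) (g.toFun 0) * deriv g.toFun 0 * deriv g.toFun 0 + deriv f.toFun (g.toFun 0) * deriv (deriv g.toFun) 0 := h4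
    rw [h5, hg0]
    ring

lemma multiplier_mul (a b : GermDiff 2) : multiplier (a * b) = multiplier a * multiplier b := by
  obtain ⟨f, rfl⟩ := GermDiff.exists_rep a
  obtain ⟨g, rfl⟩ := GermDiff.exists_rep b
  exact (comp_facts f g).1

lemma multiplier_ne (a : GermDiff 2) : multiplier a ≠ 0 := by
  obtain ⟨f, rfl⟩ := GermDiff.exists_rep a
  exact f.deriv_ne'

lemma multiplier_one : multiplier (1 : GermDiff 2) = 1 := by
  have h := multiplier_mul 1 1
  rw [mul_one] at h
  have h1 := multiplier_ne (1 : GermDiff 2)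
  field_simp at h
  exact h.symm

lemma cc_mul (a b : GermDiff 2) : cc (a * b) = cc b + multiplier b * cc a := by
  obtain ⟨f, rfl⟩ := GermDiff.exists_rep a
  obtain ⟨g, rfl⟩ := GermDiff.exists_rep b
  have h : cc (GermDiff.mk f * GermDiff.mk g) = deriv (deriv (f.toFun ∘ g.toFun)) 0 / deriv (f.toFun ∘ g.toFun) 0 := rfl
  rw [h, (comp_facts f g).1, (comp_facts f g).2, cc_mk, cc_mk, multiplier_mk]
  have h1 := f.deriv_ne'
  have h2 := g.deriv_ne'
  field_simp
  ring

lemma cc_one : cc (1 : GermDiff 2) = 0 := by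
  have h := cc_mul 1 1
  rw [mul_one, multiplier_one, one_mul] at h
  linarith

/-- the word length of the powers of `g` grows linearly -/
def Undistorted (S : Finset (GermDiff 2)) (g : GermDiff 2) : Prop :=
  ∃ c : ℝ, 0 < c ∧ ∀ n : ℕ, g ^ n ∈ Subgroup.closure (S : Set (GermDiff 2)) → c * n ≤ wordLen S (g ^ n)

lemma pow_facts {f : LD 2} (hf : f.toFun = fun x : ℝ => x - x ^ 2) (n : ℕ) :
    multiplier (GermDiff.mk f ^ n) = 1 ∧ cc (GermDiff.mk f ^ n) = -2 * n := by
  have hd : ∀ x : ℝ, HasDerivAt f.toFun (1 - 2 * x) x := by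
    intro x
    rw [hf]
    have h1 : HasDerivAt (fun x : ℝ => x - x ^ 2) (1 - ((2 : ℕ) : ℝ) * x ^ (2 - 1)) x := (hasDerivAt_id x).sub (hasDerivAt_pow 2 x)
    refine h1.congr_deriv ?_
    norm_num
  have hd1 : deriv f.toFun = fun x => 1 - 2 * x := funext fun x => (hd x).deriv
  have hd2 : deriv (deriv f.toFun) 0 = -2 := by
    rw [hd1]
    have h : HasDerivAt (fun x : ℝ => 1 - 2 * x) (-2) 0 := by
      simpa using ((hasDerivAt_id (0 : ℝ)).const_mul 2).const_sub 1
    exact h.deriv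
  have hm : multiplier (GermDiff.mk f) = 1 := by
    rw [multiplier_mk, hd1]
    norm_num
  have hc : cc (GermDiff.mk f) = -2 := by
    rw [cc_mk, hd2, hd1]
    norm_num
  induction n with
  | zero =>
    rw [pow_zero]
    exact ⟨multiplier_one, by rw [cc_one]; simp⟩
  | succ n ih =>
    rw [pow_succ, multiplier_mul, cc_mul, hm, hc, ih.1, ih.2]
    refine ⟨one_mul 1, ?_⟩
    push_cast
    ring

/-- **unitary multipliers** -/
theorem unitary {f : LD 2} (hf : f.toFun = fun x : ℝ => x - x ^ 2) (S : Finset (GermDiff 2)) (K : Subfield ℝ) (σ : K →+* ℂ)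
    (hS : ∀ s ∈ S, ∃ x : K, (x : ℝ) = multiplier s ∧ ‖σ x‖ = 1) : Undistorted S (GermDiff.mk f) := by
  classical
  -- a linear functional
  obtain ⟨ℓ, hℓ⟩ : ∃ ℓ : ℝ →ₗ[K] K, ℓ 1 = 1 := by
    have hinj : LinearMap.ker (Algebra.linearMap K ℝ) = ⊥ := by
      rw [LinearMap.ker_eq_bot]
      exact (algebraMap K ℝ).injective
    obtain ⟨ℓ, h⟩ := (Algebra.linearMap K ℝ).exists_leftInverse_of_injective hinj
    refine ⟨ℓ, ?_⟩
    have h1 := LinearMap.congr_fun h 1
    simpa using h1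
  obtain ⟨φ, hφ⟩ : ∃ φ : GermDiff 2 → ℂ, φ = fun a => σ (ℓ (cc a)) := ⟨_, rfl⟩
  -- elements whose multiplier is unitary
  obtain ⟨U, hU⟩ : ∃ U : GermDiff 2 → Prop, U = fun a => ∃ x : K, (x : ℝ) = multiplier a ∧ ‖σ x‖ = 1 := ⟨_, rfl⟩
  have hmul : ∀ a b, U b → ‖φ (a * b)‖ ≤ ‖φ a‖ + ‖φ b‖ ∧ (a * b = 1 → ‖φ a‖ = ‖φ b‖) := by
    intro a b hb
    rw [hU] at hb
    obtain ⟨x, hx, hx1⟩ := hb
    have h1 : φ (a * b) = φ b + σ x * φ a := by
      rw [hφ]
      simp only
      rw [cc_mul, map_add, map_add, ← hx]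
      have h2 : (x : ℝ) * cc a = x • cc a := rfl
      rw [h2, map_smul, smul_eq_mul, map_mul]
    constructor
    · rw [h1]
      refine (norm_add_le _ _).trans ?_
      rw [norm_mul, hx1, one_mul, add_comm]
    · intro hab
      have h3 : φ (a * b) = 0 := by
        rw [hφ]
        simp only
        rw [hab, cc_one, map_zero, map_zero]
      rw [h3] at h1
      have h4 : φ b = -(σ x * φ a) := by linear_combination -h1
      rw [h4, norm_neg, norm_mul, hx1, one_mul]
  have hUS : ∀ s ∈ S, U s := by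
    rw [hU]
    exact hS
  have hUinv : ∀ s ∈ S, U s⁻¹ := by
    intro s hs
    have h := hS s hs
    rw [hU]
    obtain ⟨x, hx, hx1⟩ := h
    refine ⟨x⁻¹, ?_, ?_⟩
    · have h1 := multiplier_mul s s⁻¹
      rw [mul_inv_cancel, multiplier_one] at h1
      rw [Subfield.coe_inv, hx]
      exact (eq_inv_of_mul_eq_one_right h1.symm).symm
    · rw [map_inv₀, norm_inv, hx1, inv_one]
  obtain ⟨C, hC0, hC⟩ : ∃ C : ℝ, 0 < C ∧ ∀ s ∈ S, ‖φ s‖ ≤ C := by
    refine ⟨∑ s ∈ S, ‖φ s‖ + 1, by positivity, fun s hs => ?_⟩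
    have := Finset.single_le_sum (f := fun s => ‖φ s‖) (fun s _ => norm_nonneg _) hs
    linarith
  have hgen : ∀ x : GermDiff 2, (x ∈ S ∨ x⁻¹ ∈ S) → U x ∧ ‖φ x‖ ≤ C := by
    rintro x (hx | hx)
    · exact ⟨hUS x hx, hC x hx⟩
    · have h1 := hUinv _ hx
      rw [inv_inv] at h1
      refine ⟨h1, ?_⟩
      have h2 := (hmul x⁻¹ x h1).2 (inv_mul_cancel x)
      rw [← h2]
      exact hC _ hx
  have hword : ∀ l : List (GermDiff 2), (∀ x ∈ l, x ∈ S ∨ x⁻¹ ∈ S) → ‖φ l.prod‖ ≤ C * l.length := by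
    intro l
    induction l using List.reverseRecOn with
    | nil =>
      intro _
      have : φ (1 : GermDiff 2) = 0 := by
        rw [hφ]
        simp only
        rw [cc_one, map_zero, map_zero]
      simp [this]
    | append_singleton l x ih =>
      intro hl
      have h1 := ih (fun y hy => hl y (List.mem_append.2 (Or.inl hy)))
      have h2 := hgen x (hl x (by simp))
      rw [List.prod_append, List.prod_singleton, List.length_append, List.length_singleton]
      have h3 := (hmul l.prod x h2.1).1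
      push_cast
      linarith [h2.2]
  refine ⟨2 / C, by positivity, fun n hn => ?_⟩
  obtain ⟨l, hl1, hl2, hl3⟩ := exists_word S _ hn
  have h1 := hword l hl2
  rw [hl3, hl1] at h1
  have h2 : ‖φ (GermDiff.mk f ^ n)‖ = 2 * n := by
    rw [hφ]
    simp only
    rw [(pow_facts hf n).2]
    have h3 : (-2 * (n : ℝ)) = ((-2 * (n : ℤ) : ℤ) : K) • (1 : ℝ) := by
      show _ = (((-2 * (n : ℤ) : ℤ) : K) : ℝ) * 1
      have h4 : (((-2 * (n : ℤ) : ℤ) : K) : ℝ) = ((-2 * (n : ℤ) : ℤ) : ℝ) := map_intCast K.subtype _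
      rw [mul_one, h4]
      push_cast
      ring
    rw [h3, map_smul, hℓ, smul_eq_mul, mul_one, map_intCast]
    push_cast
    rw [norm_mul, norm_neg]
    simp
  rw [h2] at h1
  rw [div_mul_eq_mul_div, div_le_iff₀ hC0]
  linarith

end Pool.Agent.Helper53.UM
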