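import Pool.Agent.Helper53.UM.Basic

/-!
# Algebraically independent multipliers

There are algebraically independent numbers on the unit circle, so a field generated by algebraically independent real numbers has an embedding
which makes them unitary.
-/

set_option autoImplicit false

open Filter Topology Pool.Agent.Germ

namespace Pool.Agent.Helper53.UM

/-- every complex number of norm at most two is a sum of two numbers of norm one -/
lemma two_units (z : ℂ) (hz : ‖z‖ ≤ 2) : ∃ a b : ℂ, ‖a‖ = 1 ∧ ‖b‖ = 1 ∧ z = a + b := by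
  rcases eq_or_ne z 0 with rfl | h0
  · exact ⟨1, -1, by simp, by simp, by ring⟩
  · obtain ⟨r, hr⟩ : ∃ r : ℝ, r = ‖z‖ / 2 := ⟨_, rfl⟩
    have hz0 : 0 < ‖z‖ := norm_pos_iff.2 h0
    have hr0 : 0 < r := by rw [hr]; positivity
    have hr1 : r ≤ 1 := by rw [hr]; linarith
    obtain ⟨u, hu⟩ : ∃ u : ℂ, u = z / (‖z‖ : ℂ) := ⟨_, rfl⟩
    have hu1 : ‖u‖ = 1 := by
      rw [hu, norm_div, Complex.norm_real, norm_norm, div_self hz0.ne']
    have hzu : z = 2 * (r : ℂ) * u := by
      have : (‖z‖ : ℂ) ≠ 0 := by exact_mod_cast hz0.ne'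
      rw [hu, hr]
      push_cast
      field_simp
    obtain ⟨s, hs⟩ : ∃ s : ℝ, s = Real.sqrt (1 - r ^ 2) := ⟨_, rfl⟩
    have hs2 : r ^ 2 + s ^ 2 = 1 := by
      rw [hs, Real.sq_sqrt (by nlinarith)]
      ring
    have hn : ∀ e : ℝ, e ^ 2 = 1 → ‖u * ((r : ℂ) + (e * s : ℝ) * Complex.I)‖ = 1 := by
      intro e he
      rw [norm_mul, hu1, one_mul]
      have h1 : ‖((r : ℂ) + (e * s : ℝ) * Complex.I)‖ ^ 2 = 1 := by
        rw [← Complex.normSq_eq_norm_sq, Complex.normSq_add_mul_I]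
        nlinarith
      have h2 := norm_nonneg ((r : ℂ) + (e * s : ℝ) * Complex.I)
      nlinarith
    refine ⟨u * ((r : ℂ) + ((1 : ℝ) * s : ℝ) * Complex.I), u * ((r : ℂ) + ((-1 : ℝ) * s : ℝ) * Complex.I), hn 1 (by norm_num), hn (-1) (by norm_num), ?_⟩
    rw [hzu]
    push_cast
    ring

lemma adjoin_circle : Algebra.adjoin ℚ {z : ℂ | ‖z‖ = 1} = ⊤ := by
  rw [eq_top_iff]
  intro z _
  obtain ⟨n, hn⟩ := exists_nat_gt ‖z‖
  have hn0 : (0 : ℝ) < n := lt_of_le_of_lt (norm_nonneg _) hn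
  have hn0' : (n : ℂ) ≠ 0 := by exact_mod_cast hn0.ne'
  obtain ⟨a, b, ha, hb, hab⟩ := two_units (z / n) (by
    rw [norm_div, Complex.norm_natCast, div_le_iff₀ hn0]
    linarith)
  have h1 : z = (n : ℚ) • (a + b) := by
    rw [← hab, Algebra.smul_def]
    simp
    field_simp
  rw [h1]
  have ha' : a ∈ Algebra.adjoin ℚ {z : ℂ | ‖z‖ = 1} := Algebra.subset_adjoin ha
  have hb' : b ∈ Algebra.adjoin ℚ {z : ℂ | ‖z‖ = 1} := Algebra.subset_adjoin hb
  exact Subalgebra.smul_mem _ (add_mem ha' hb') _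

lemma exists_unit_indep (k : ℕ) : ∃ y : Fin k → ℂ, AlgebraicIndependent ℚ y ∧ ∀ i, ‖y i‖ = 1 := by
  have halg : Algebra.IsAlgebraic (Algebra.adjoin ℚ {z : ℂ | ‖z‖ = 1}) ℂ := by
    refine ⟨fun z => ?_⟩
    have h : z ∈ Algebra.adjoin ℚ {z : ℂ | ‖z‖ = 1} := by
      rw [adjoin_circle]
      trivial
    exact isAlgebraic_algebraMap (⟨z, h⟩ : Algebra.adjoin ℚ {z : ℂ | ‖z‖ = 1})
  obtain ⟨t, ht, htb⟩ := exists_isTranscendenceBasis_subset (R := ℚ) {z : ℂ | ‖z‖ = 1}
  have hinf : Infinite t := by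
    by_contra hcon
    rw [not_infinite_iff_finite] at hcon
    have h1 := IsAlgClosed.cardinal_le_max_transcendence_basis' ((↑) : t → ℂ) htb
    have h2 : Cardinal.mk ℂ ≤ Cardinal.aleph0 := by
      refine h1.trans ?_
      refine max_le (max_le ?_ ?_) le_rfl
      · exact Cardinal.mk_le_aleph0
      · exact (Cardinal.lt_aleph0_of_finite t).le
    rw [Cardinal.mk_complex] at h2
    exact absurd h2 (not_le.2 Cardinal.aleph0_lt_continuum)
  refine ⟨fun i => (Infinite.natEmbedding t i.val : ℂ), ?_, ?_⟩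
  · exact htb.1.comp (fun i : Fin k => Infinite.natEmbedding t i.val) (fun i j h => by
      have := (Infinite.natEmbedding t).injective h
      exact Fin.ext this)
  · intro i
    exact ht (Infinite.natEmbedding t i.val).2

lemma lift_indep {ι F E₁ E₂ : Type*} [Field F] [Field E₁] [Field E₂] [Algebra F E₁] [Algebra F E₂] {x : ι → E₁} {y : ι → E₂}
    (hx : AlgebraicIndependent F x) (hy : AlgebraicIndependent F y) :
    ∃ Φ : IntermediateField.adjoin F (Set.range x) →+* E₂, ∀ i (h : x i ∈ IntermediateField.adjoin F (Set.range x)), Φ ⟨x i, h⟩ = y i := by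
  let e : IntermediateField.adjoin F (Set.range x) ≃ₐ[F] IntermediateField.adjoin F (Set.range y) :=
    hx.aevalEquivField.symm.trans hy.aevalEquivField
  refine ⟨RingHom.comp (algebraMap (IntermediateField.adjoin F (Set.range y)) E₂) (e : IntermediateField.adjoin F (Set.range x) →+* IntermediateField.adjoin F (Set.range y)), fun i h => ?_⟩
  have h1 : hx.aevalEquivField (algebraMap (MvPolynomial ι F) (FractionRing (MvPolynomial ι F)) (MvPolynomial.X i)) = ⟨x i, h⟩ := by
    apply Subtype.ext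
    have := hx.aevalEquivField_algebraMap_apply_coe (MvPolynomial.X i)
    rw [MvPolynomial.aeval_X] at this
    exact this
  have h2 : (hy.aevalEquivField (algebraMap (MvPolynomial ι F) (FractionRing (MvPolynomial ι F)) (MvPolynomial.X i)) : E₂) = y i := by
    have := hy.aevalEquivField_algebraMap_apply_coe (MvPolynomial.X i)
    rw [MvPolynomial.aeval_X] at this
    exact this
  show ((hy.aevalEquivField (hx.aevalEquivField.symm ⟨x i, h⟩) : IntermediateField.adjoin F (Set.range y)) : E₂) = y i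
  rw [← h1, AlgEquiv.symm_apply_apply]
  exact h2

/-- **algebraically independent multipliers** -/
theorem indep {f : LD 2} (hf : f.toFun = fun x : ℝ => x - x ^ 2) (S : Finset (GermDiff 2)) (k : ℕ) (l : Fin k → ℝ)
    (hl : AlgebraicIndependent ℚ l) (hS : ∀ s ∈ S, ∃ e : Fin k → ℤ, |multiplier s| = |∏ i, l i ^ e i|) :
    Undistorted S (GermDiff.mk f) := by
  obtain ⟨y, hy, hy1⟩ := exists_unit_indep k
  obtain ⟨Φ, hΦ⟩ := lift_indep hl hy
  refine unitary hf S (IntermediateField.adjoin ℚ (Set.range l)).toSubfield Φ ?_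
  intro s hs
  obtain ⟨e, he⟩ := hS s hs
  have hmem : ∀ i, l i ∈ IntermediateField.adjoin ℚ (Set.range l) := fun i => IntermediateField.subset_adjoin ℚ _ ⟨i, rfl⟩
  obtain ⟨x, hx⟩ : ∃ x : IntermediateField.adjoin ℚ (Set.range l), x = ∏ i, (⟨l i, hmem i⟩ : IntermediateField.adjoin ℚ (Set.range l)) ^ e i := ⟨_, rfl⟩
  have hxc : (x : ℝ) = ∏ i, l i ^ e i := by
    rw [hx]
    push_cast
    rfl
  have hxn : ‖Φ x‖ = 1 := by
    rw [hx, map_prod, norm_prod]
    refine Finset.prod_eq_one fun i _ => ?_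
    rw [map_zpow₀, hΦ, norm_zpow, hy1, one_zpow]
  rw [← hxc] at he
  rcases abs_eq_abs.1 he with h | h
  · exact ⟨x, h.symm, hxn⟩
  · refine ⟨-x, ?_, ?_⟩
    · rw [h]
      rfl
    · rw [map_neg, norm_neg]
      exact hxn

end Pool.Agent.Helper53.UM
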